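import Pool.Agent.N273.BR.Stm
import Pool.Agent.R528.RM.Tails

/-!
# Few chosen integers in a window, starting from an event (PROJECT BR)
-/

set_option autoImplicit false

open MeasureTheory Filter Set
open scoped Topology ENNReal

namespace Pool.Agent.N265.BR

open Pool.Agent.R528.RM Pool.Agent.N417.SM

theorem cnw : Pool.Agent.N273.BR.CNW := by
  classical
  intro Ω m0 μ _ ℱ A hA V hV l u hl1 hu0 t j hbd z hz hz1 m C hC
  have h1 : ((C ∩ {ω | cnt A t j ω < m}) \ WV V t j) ⊆
      ⋃ k ∈ (Finset.range (j + 1)).filter (· < m), ((C ∩ {ω | cnt A t j ω = k}) \ WV V t j) := by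
    intro ω hω
    rw [mem_iUnion₂]
    refine ⟨cnt A t j ω, ?_, ⟨⟨hω.1.1, rfl⟩, hω.2⟩⟩
    rw [Finset.mem_filter, Finset.mem_range]
    exact ⟨Nat.lt_succ_of_le (cnt_le_len t j ω), hω.1.2⟩
  have h2 : μ.real ((C ∩ {ω | cnt A t j ω < m}) \ WV V t j) ≤
      ∑ k ∈ (Finset.range (j + 1)).filter (· < m),
        (j.choose k : ℝ) * u ^ k * (1 - l) ^ (j - k) * μ.real C := by
    refine (measureReal_mono h1 (measure_ne_top _ _)).trans ((measureReal_biUnion_finset_le _ _).trans ?_)
    apply Finset.sum_le_sum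
    intro k _
    exact cnt_le (μ := μ) hA hV hl1 hu0 j t hbd k C hC
  have hpos : 0 < z ^ m := pow_pos hz m
  have hl0 : 0 ≤ 1 - l := by linarith
  have hC0 : 0 ≤ μ.real C := measureReal_nonneg
  have h3 : ∑ k ∈ (Finset.range (j + 1)).filter (· < m),
        (j.choose k : ℝ) * u ^ k * (1 - l) ^ (j - k) * μ.real C ≤
      ∑ k ∈ Finset.range (j + 1), ((z ^ m)⁻¹ * μ.real C) *
        ((z * u) ^ k * (1 - l) ^ (j - k) * (j.choose k : ℝ)) := by
    have h4 : ∑ k ∈ (Finset.range (j + 1)).filter (· < m),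
          (j.choose k : ℝ) * u ^ k * (1 - l) ^ (j - k) * μ.real C ≤
        ∑ k ∈ (Finset.range (j + 1)).filter (· < m), ((z ^ m)⁻¹ * μ.real C) *
          ((z * u) ^ k * (1 - l) ^ (j - k) * (j.choose k : ℝ)) := by
      apply Finset.sum_le_sum
      intro k hk
      have h5 : z ^ m ≤ z ^ k := pow_le_pow_of_le_one hz.le hz1 (Finset.mem_filter.1 hk).2.le
      have h6 : 1 ≤ (z ^ m)⁻¹ * z ^ k := by
        rw [inv_mul_eq_div, one_le_div hpos]
        exact h5
      have h7 : 0 ≤ (j.choose k : ℝ) * u ^ k * (1 - l) ^ (j - k) * μ.real C := by positivity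
      calc (j.choose k : ℝ) * u ^ k * (1 - l) ^ (j - k) * μ.real C
          ≤ ((z ^ m)⁻¹ * z ^ k) * ((j.choose k : ℝ) * u ^ k * (1 - l) ^ (j - k) * μ.real C) :=
            le_mul_of_one_le_left h7 h6
        _ = _ := by rw [mul_pow]; ring
    refine h4.trans ?_
    apply Finset.sum_le_sum_of_subset_of_nonneg (Finset.filter_subset _ _)
    intro k _ _
    positivity
  rw [← Finset.mul_sum, ← add_pow] at h3
  refine h2.trans (h3.trans ?_)
  have h9 : z * u + (1 - l) ≤ Real.exp (-(l - z * u)) := by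
    have := Real.add_one_le_exp (-(l - z * u))
    linarith
  have h10 : (z * u + (1 - l)) ^ j ≤ Real.exp (-(j * (l - z * u))) := by
    have e : -((j : ℝ) * (l - z * u)) = (j : ℝ) * (-(l - z * u)) := by ring
    rw [e, Real.exp_nat_mul]
    exact pow_le_pow_left₀ (by positivity) h9 j
  calc (z ^ m)⁻¹ * μ.real C * (z * u + (1 - l)) ^ j
      ≤ (z ^ m)⁻¹ * μ.real C * Real.exp (-(j * (l - z * u))) := by
        exact mul_le_mul_of_nonneg_left h10 (by positivity)
    _ = _ := by ring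

end Pool.Agent.N265.BR
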